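import Pool.Agent.Helper317.Ulm.A1

/-!
Ulm invariants of products.
-/

namespace Pool.Agent.Helper317.Ulm


-- TARGET (prove all; auxiliary lemmas welcome)
theorem Pw_prod {p : ℕ} {G H : Type} [AddCommGroup G] [AddCommGroup H] (α : Ordinal.{0})
    (z : G × H) : z ∈ Pw p (G × H) α ↔ z.1 ∈ Pw p G α ∧ z.2 ∈ Pw p H α := by
  induction α using WellFoundedLT.induction generalizing z with
  | ind α ih =>
    constructor
    · intro hz
      rw [mem_Pw] at hz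
      constructor
      · rw [mem_Pw]
        intro β hβ
        obtain ⟨y, hy, hyz⟩ := hz β hβ
        exact ⟨y.1, ((ih β hβ y).1 hy).1, by rw [← hyz]; rfl⟩
      · rw [mem_Pw]
        intro β hβ
        obtain ⟨y, hy, hyz⟩ := hz β hβ
        exact ⟨y.2, ((ih β hβ y).1 hy).2, by rw [← hyz]; rfl⟩
    · rintro ⟨h1, h2⟩
      rw [mem_Pw] at h1 h2 ⊢
      intro β hβ
      obtain ⟨a, ha, haz⟩ := h1 β hβ
      obtain ⟨b, hb, hbz⟩ := h2 β hβ
      refine ⟨(a, b), (ih β hβ (a, b)).2 ⟨ha, hb⟩, ?_⟩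
      exact Prod.ext haz hbz

theorem Soc_prod {p : ℕ} {G H : Type} [AddCommGroup G] [AddCommGroup H] (α : Ordinal.{0}) :
    Soc p (G × H) α = (Soc p G α).prod (Soc p H α) := by
  ext z
  rw [AddSubgroup.mem_prod]
  change (z ∈ Pw p (G × H) α ∧ p • z = 0) ↔
    ((z.1 ∈ Pw p G α ∧ p • z.1 = 0) ∧ (z.2 ∈ Pw p H α ∧ p • z.2 = 0))
  rw [Pw_prod, Prod.ext_iff]
  change ((z.1 ∈ Pw p G α ∧ z.2 ∈ Pw p H α) ∧ (p • z.1 = 0 ∧ p • z.2 = 0)) ↔ _
  tauto

theorem relIndex_prod' {G H : Type} [AddCommGroup G] [AddCommGroup H]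
    (A A' : AddSubgroup G) (B B' : AddSubgroup H) :
    (A.prod B).relIndex (A'.prod B') = A.relIndex A' * B.relIndex B' := by
  classical
  unfold AddSubgroup.relIndex
  let f : (A'.prod B') →+ (A' ⧸ A.addSubgroupOf A') × (B' ⧸ B.addSubgroupOf B') :=
    { toFun := fun z => (QuotientAddGroup.mk ⟨z.1.1, (AddSubgroup.mem_prod.1 z.2).1⟩,
        QuotientAddGroup.mk ⟨z.1.2, (AddSubgroup.mem_prod.1 z.2).2⟩)
      map_zero' := rfl
      map_add' := fun x y => rfl }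
  have hf : Function.Surjective f := by
    rintro ⟨a, b⟩
    obtain ⟨a, rfl⟩ := QuotientAddGroup.mk_surjective a
    obtain ⟨b, rfl⟩ := QuotientAddGroup.mk_surjective b
    exact ⟨⟨(a.1, b.1), AddSubgroup.mem_prod.2 ⟨a.2, b.2⟩⟩, rfl⟩
  have hker : f.ker = (A.prod B).addSubgroupOf (A'.prod B') := by
    ext z
    rw [AddMonoidHom.mem_ker, AddSubgroup.mem_addSubgroupOf, AddSubgroup.mem_prod]
    rw [Prod.ext_iff]
    change ((QuotientAddGroup.mk (⟨z.1.1, _⟩ : A') : A' ⧸ A.addSubgroupOf A') = 0 ∧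
      (QuotientAddGroup.mk (⟨z.1.2, _⟩ : B') : B' ⧸ B.addSubgroupOf B') = 0) ↔ _
    rw [QuotientAddGroup.eq_zero_iff, QuotientAddGroup.eq_zero_iff,
      AddSubgroup.mem_addSubgroupOf, AddSubgroup.mem_addSubgroupOf]
  rw [← hker]
  have e := QuotientAddGroup.quotientKerEquivOfSurjective f hf
  unfold AddSubgroup.index
  rw [Nat.card_congr e.toEquiv, Nat.card_prod]

theorem Inv_prod {p : ℕ} {G H : Type} [AddCommGroup G] [AddCommGroup H] (α : Ordinal.{0}) :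
    Inv p (G × H) α = Inv p G α * Inv p H α := by
  unfold Inv
  rw [Soc_prod, Soc_prod, relIndex_prod']

theorem InvInf_prod {p : ℕ} {G H : Type} [AddCommGroup G] [AddCommGroup H] :
    InvInf p (G × H) = InvInf p G * InvInf p H := by
  unfold InvInf
  rw [← Nat.card_prod]
  have h : ∀ z : G × H, z ∈ SocInf p (G × H) ↔ z.1 ∈ SocInf p G ∧ z.2 ∈ SocInf p H := by
    intro z
    change ((∀ α, z ∈ Pw p (G × H) α) ∧ p • z = 0) ↔
      (((∀ α, z.1 ∈ Pw p G α) ∧ p • z.1 = 0) ∧ ((∀ α, z.2 ∈ Pw p H α) ∧ p • z.2 = 0))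
    rw [Prod.ext_iff]
    change _ ∧ (p • z.1 = 0 ∧ p • z.2 = 0) ↔ _
    constructor
    · rintro ⟨h1, h2, h3⟩
      exact ⟨⟨fun α => ((Pw_prod α z).1 (h1 α)).1, h2⟩,
        ⟨fun α => ((Pw_prod α z).1 (h1 α)).2, h3⟩⟩
    · rintro ⟨⟨h1, h2⟩, h3, h4⟩
      exact ⟨fun α => (Pw_prod α z).2 ⟨h1 α, h3 α⟩, h2, h4⟩
  refine Nat.card_congr
    { toFun := fun z => (⟨z.1.1, ((h z.1).1 z.2).1⟩, ⟨z.1.2, ((h z.1).1 z.2).2⟩)
      invFun := fun w => ⟨(w.1.1, w.2.1), (h (w.1.1, w.2.1)).2 ⟨w.1.2, w.2.2⟩⟩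
      left_inv := fun z => rfl
      right_inv := fun w => rfl }

end Pool.Agent.Helper317.Ulm
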