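import Pool.Agent.Helper317.Ulm.A11
import Pool.Agent.Helper317.Ulm.A12

/-!
Equality of Ulm invariants from squares and summands.
-/

namespace Pool.Agent.Helper317.Ulm


-- TARGET (prove both; `Inv` and `InvInf` are natural numbers, `0` standing for infinite)
theorem sameUlm_of_sq {p : ℕ} {G H : Type} [AddCommGroup G] [AddCommGroup H]
    (e : (G × G) ≃+ (H × H)) : SameUlm p G H := by
  refine ⟨fun α => ?_, ?_⟩
  · have h := Inv_equiv (p := p) e α
    rw [Inv_prod, Inv_prod] at h
    exact Nat.mul_self_inj.mp h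
  · have h := InvInf_equiv (p := p) e
    rw [InvInf_prod, InvInf_prod] at h
    exact Nat.mul_self_inj.mp h

private theorem nat_aux (g h k l : ℕ) (h1 : h = g * k) (h2 : g = h * l) : g = h := by
  rcases Nat.eq_zero_or_pos g with hg | hg
  · rw [h1, hg, Nat.zero_mul]
  · have hl : 0 < l := by
      rcases Nat.eq_zero_or_pos l with hl | hl
      · rw [hl, Nat.mul_zero] at h2; omega
      · exact hl
    have hh : 0 < h := by
      rcases Nat.eq_zero_or_pos h with hh | hh
      · rw [hh, Nat.zero_mul] at h2; omega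
      · exact hh
    have hk : 0 < k := by
      rcases Nat.eq_zero_or_pos k with hk | hk
      · rw [hk, Nat.mul_zero] at h1; omega
      · exact hk
    have a1 : g ≤ h := by rw [h1]; exact Nat.le_mul_of_pos_right g hk
    have a2 : h ≤ g := by
      calc h ≤ h * l := Nat.le_mul_of_pos_right h hl
        _ = g := h2.symm
    exact le_antisymm a1 a2

theorem sameUlm_of_summands {p : ℕ} {G H K L : Type} [AddCommGroup G] [AddCommGroup H]
    [AddCommGroup K] [AddCommGroup L] (e : H ≃+ (G × K)) (e' : G ≃+ (H × L)) :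
    SameUlm p G H := by
  refine ⟨fun α => ?_, ?_⟩
  · have h1 := Inv_equiv (p := p) e α
    have h2 := Inv_equiv (p := p) e' α
    rw [Inv_prod] at h1 h2
    exact nat_aux _ _ _ _ h1 h2
  · have h1 := InvInf_equiv (p := p) e
    have h2 := InvInf_equiv (p := p) e'
    rw [InvInf_prod] at h1 h2
    exact nat_aux _ _ _ _ h1 h2

end Pool.Agent.Helper317.Ulm
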