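import Pool.Agent.Helper317.Ulm.A1

/-!
Primary decomposition.
-/

namespace Pool.Agent.Helper317.Ulm


theorem q8308_surj {G : Type} [AddCommGroup G] (n : ℕ) : 0 < n → ∀ x : G, n • x = 0 →
    x ∈ (DFinsupp.sumAddHom (fun p : Nat.Primes => (Prim p G).subtype)).range := by
  induction n using Nat.recOnPrimeCoprime with
  | zero => intro h; exact absurd h (lt_irrefl 0)
  | prime_pow p n hp =>
    intro _ x hx
    exact ⟨DFinsupp.single (⟨p, hp⟩ : Nat.Primes) (⟨x, n, hx⟩ : Prim p G),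
      DFinsupp.sumAddHom_single _ _ _⟩
  | coprime a b ha hb hab iha ihb =>
    intro _ x hx
    have h1 := Nat.gcd_eq_gcd_ab a b
    have h2 : Nat.gcd a b = 1 := hab
    rw [h2] at h1
    have hx' : ((a : ℤ) * b) • x = 0 := by
      have : ((a : ℤ) * b) = ((a * b : ℕ) : ℤ) := by push_cast; rfl
      rw [this, natCast_zsmul]
      exact hx
    have h3 : x = ((a : ℤ) * Nat.gcdA a b) • x + ((b : ℤ) * Nat.gcdB a b) • x := by
      rw [← add_smul, ← h1]
      simp
    have h4 : ((a : ℤ) * Nat.gcdA a b) • x ∈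
        (DFinsupp.sumAddHom (fun p : Nat.Primes => (Prim p G).subtype)).range := by
      apply ihb (by omega)
      rw [← natCast_zsmul, ← mul_smul]
      have : (b : ℤ) * ((a : ℤ) * Nat.gcdA a b) = Nat.gcdA a b * ((a : ℤ) * b) := by ring
      rw [this, mul_smul, hx', smul_zero]
    have h5 : ((b : ℤ) * Nat.gcdB a b) • x ∈
        (DFinsupp.sumAddHom (fun p : Nat.Primes => (Prim p G).subtype)).range := by
      apply iha (by omega)
      rw [← natCast_zsmul, ← mul_smul]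
      have : (a : ℤ) * ((b : ℤ) * Nat.gcdB a b) = Nat.gcdB a b * ((a : ℤ) * b) := by ring
      rw [this, mul_smul, hx', smul_zero]
    rw [h3]
    exact add_mem h4 h5

/-- elements killed by an integer prime to `p` -/
def q8308_N (p : ℕ) (G : Type) [AddCommGroup G] : AddSubgroup G where
  carrier := {x | ∃ n : ℕ, Nat.Coprime n p ∧ n • x = 0}
  zero_mem' := ⟨1, Nat.coprime_one_left p, smul_zero _⟩
  add_mem' := by
    rintro a b ⟨m, hm, hm'⟩ ⟨n, hn, hn'⟩
    refine ⟨m * n, Nat.Coprime.mul_left hm hn, ?_⟩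
    rw [smul_add, mul_comm, mul_smul, hm', smul_zero, mul_comm, mul_smul, hn', smul_zero,
      add_zero]
  neg_mem' := by
    rintro a ⟨m, hm, hm'⟩
    exact ⟨m, hm, by rw [smul_neg, hm', neg_zero]⟩

theorem q8308_indep {G : Type} [AddCommGroup G] :
    iSupIndep (fun p : Nat.Primes => Prim p G) := by
  rw [iSupIndep_def]
  intro p
  rw [AddSubgroup.disjoint_def]
  intro x hx hx'
  have h1 : (⨆ (q : Nat.Primes) (_ : q ≠ p), Prim q G) ≤ q8308_N p G := by
    apply iSup₂_le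
    intro q hq y hy
    obtain ⟨n, hn⟩ := hy
    refine ⟨(q : ℕ) ^ n, ?_, hn⟩
    apply Nat.Coprime.pow_left
    rw [Nat.coprime_primes q.2 p.2]
    intro h
    exact hq (Subtype.ext h)
  obtain ⟨m, hm, hm'⟩ := h1 hx'
  obtain ⟨n, hn⟩ := hx
  have hcop : Nat.Coprime m ((p : ℕ) ^ n) := Nat.Coprime.pow_right n hm
  have h2 : addOrderOf x ∣ m := addOrderOf_dvd_of_nsmul_eq_zero hm'
  have h3 : addOrderOf x ∣ (p : ℕ) ^ n := addOrderOf_dvd_of_nsmul_eq_zero hn
  have h4 : addOrderOf x = 1 := Nat.eq_one_of_dvd_coprimes hcop h2 h3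
  exact AddMonoid.addOrderOf_eq_one_iff.1 h4

theorem q8308_equiv {G : Type} [AddCommGroup G] (hG : ∀ x : G, ∃ n : ℕ, 0 < n ∧ n • x = 0) :
    Nonempty ((Π₀ p : Nat.Primes, Prim p G) ≃+ G) := by
  refine ⟨AddEquiv.ofBijective (DFinsupp.sumAddHom (fun p : Nat.Primes => (Prim p G).subtype))
    ⟨q8308_indep.dfinsuppSumAddHom_injective, ?_⟩⟩
  intro x
  obtain ⟨n, hn, hx⟩ := hG x
  exact q8308_surj n hn x hx

theorem iso_of_prim {G H : Type} [AddCommGroup G] [AddCommGroup H]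
    (hG : ∀ x : G, ∃ n : ℕ, 0 < n ∧ n • x = 0) (hH : ∀ x : H, ∃ n : ℕ, 0 < n ∧ n • x = 0)
    (h : ∀ p : ℕ, p.Prime → Nonempty (Prim p G ≃+ Prim p H)) : Nonempty (G ≃+ H) := by
  obtain ⟨eG⟩ := q8308_equiv hG
  obtain ⟨eH⟩ := q8308_equiv hH
  have f : ∀ p : Nat.Primes, Prim p G ≃+ Prim p H := fun p => (h p p.2).some
  exact ⟨eG.symm.trans ((DFinsupp.mapRange.addEquiv f).trans eH)⟩

end Pool.Agent.Helper317.Ulm
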