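import Pool.Agent.Helper317.Ulm.A10
import Pool.Agent.Helper317.Ulm.A13
import Pool.Agent.Helper317.Ulm.A14

/-!
The test problems for countable torsion groups.
-/

namespace Pool.Agent.Helper317.Ulm


/-- an isomorphism restricts to the primary components -/
def primEquiv (p : ℕ) {A B : Type} [AddCommGroup A] [AddCommGroup B] (e : A ≃+ B) :
    Prim p A ≃+ Prim p B where
  toFun x := ⟨e x.1, by
    obtain ⟨n, hn⟩ := x.2
    exact ⟨n, by rw [← map_nsmul, hn, map_zero]⟩⟩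
  invFun x := ⟨e.symm x.1, by
    obtain ⟨n, hn⟩ := x.2
    exact ⟨n, by rw [← map_nsmul, hn, map_zero]⟩⟩
  left_inv x := Subtype.ext (e.symm_apply_apply x.1)
  right_inv x := Subtype.ext (e.apply_symm_apply x.1)
  map_add' x y := Subtype.ext (map_add e x.1 y.1)

/-- primary component of a product -/
def primProd (p : ℕ) (A B : Type) [AddCommGroup A] [AddCommGroup B] :
    Prim p (A × B) ≃+ Prim p A × Prim p B where
  toFun x := (⟨x.1.1, by
    obtain ⟨n, hn⟩ := x.2
    exact ⟨n, congrArg Prod.fst hn⟩⟩, ⟨x.1.2, by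
    obtain ⟨n, hn⟩ := x.2
    exact ⟨n, congrArg Prod.snd hn⟩⟩)
  invFun x := ⟨(x.1.1, x.2.1), by
    obtain ⟨m, hm⟩ := x.1.2
    obtain ⟨n, hn⟩ := x.2.2
    refine ⟨m + n, Prod.ext ?_ ?_⟩
    · show p ^ (m + n) • x.1.1 = 0
      rw [pow_add, mul_comm, mul_smul, hm, smul_zero]
    · show p ^ (m + n) • x.2.1 = 0
      rw [pow_add, mul_smul, hn, smul_zero]⟩
  left_inv x := rfl
  right_inv x := rfl
  map_add' x y := rfl

theorem prim_pgrp (p : ℕ) (A : Type) [AddCommGroup A] : PGrp p (Prim p A) := by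
  intro x
  obtain ⟨n, hn⟩ := x.2
  exact ⟨n, Subtype.ext hn⟩

theorem kap_a {G H : Type} [AddCommGroup G] [AddCommGroup H] [Countable G] [Countable H]
    (hG : ∀ x : G, ∃ n : ℕ, 0 < n ∧ n • x = 0) (hH : ∀ x : H, ∃ n : ℕ, 0 < n ∧ n • x = 0)
    (e : (G × G) ≃+ (H × H)) : Nonempty (G ≃+ H) := by
  apply iso_of_prim hG hH
  intro p hp
  have e1 : (Prim p G × Prim p G) ≃+ (Prim p H × Prim p H) :=
    (primProd p G G).symm.trans ((primEquiv p e).trans (primProd p H H))
  exact ulm hp (prim_pgrp p G) (prim_pgrp p H) (sameUlm_of_sq e1)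

theorem kap_b {G H K L : Type} [AddCommGroup G] [AddCommGroup H] [AddCommGroup K]
    [AddCommGroup L] [Countable G] [Countable H]
    (hG : ∀ x : G, ∃ n : ℕ, 0 < n ∧ n • x = 0) (hH : ∀ x : H, ∃ n : ℕ, 0 < n ∧ n • x = 0)
    (e : H ≃+ (G × K)) (e' : G ≃+ (H × L)) : Nonempty (G ≃+ H) := by
  apply iso_of_prim hG hH
  intro p hp
  have e1 : Prim p H ≃+ (Prim p G × Prim p K) := (primEquiv p e).trans (primProd p G K)
  have e2 : Prim p G ≃+ (Prim p H × Prim p L) := (primEquiv p e').trans (primProd p H L)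
  exact ulm hp (prim_pgrp p G) (prim_pgrp p H) (sameUlm_of_summands e1 e2)

end Pool.Agent.Helper317.Ulm
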