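import Mathlib

/-!
Basic facts on `p^α G`.
-/

namespace Pool.Agent.Helper317.Ulm

/-- `p` times a subgroup. -/
def mulp (p : ℕ) {G : Type} [AddCommGroup G] (P : AddSubgroup G) : AddSubgroup G :=
  P.map (nsmulAddMonoidHom p)

/-- The transfinite sequence `p ^ α G`. -/
noncomputable def Pw (p : ℕ) (G : Type) [AddCommGroup G] : Ordinal.{0} → AddSubgroup G
  | α => ⨅ β : Set.Iio α, mulp p (Pw p G β.1)
termination_by α => α
decreasing_by exact β.2

/-- The elements of `p ^ α G` killed by `p`. -/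
def Soc (p : ℕ) (G : Type) [AddCommGroup G] (α : Ordinal.{0}) : AddSubgroup G where
  carrier := {x | x ∈ Pw p G α ∧ p • x = 0}
  zero_mem' := ⟨zero_mem _, smul_zero _⟩
  add_mem' := fun {a b} ha hb => ⟨add_mem ha.1 hb.1, by rw [smul_add, ha.2, hb.2, add_zero]⟩
  neg_mem' := fun {a} ha => ⟨neg_mem ha.1, by rw [smul_neg, ha.2, neg_zero]⟩

/-- The Ulm invariant at `α`, as an index (`0` if infinite). -/
noncomputable def Inv (p : ℕ) (G : Type) [AddCommGroup G] (α : Ordinal.{0}) : ℕ :=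
  (Soc p G (α + 1)).relIndex (Soc p G α)

/-- The elements of infinite height killed by `p`. -/
def SocInf (p : ℕ) (G : Type) [AddCommGroup G] : AddSubgroup G where
  carrier := {x | (∀ α, x ∈ Pw p G α) ∧ p • x = 0}
  zero_mem' := ⟨fun _ => zero_mem _, smul_zero _⟩
  add_mem' := fun {a b} ha hb => ⟨fun α => add_mem (ha.1 α) (hb.1 α), by
    rw [smul_add, ha.2, hb.2, add_zero]⟩
  neg_mem' := fun {a} ha => ⟨fun α => neg_mem (ha.1 α), by rw [smul_neg, ha.2, neg_zero]⟩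

/-- The Ulm invariant at infinity (`0` if infinite). -/
noncomputable def InvInf (p : ℕ) (G : Type) [AddCommGroup G] : ℕ := Nat.card (SocInf p G)

/-- `G` and `H` have the same Ulm invariants at the prime `p`. -/
def SameUlm (p : ℕ) (G H : Type) [AddCommGroup G] [AddCommGroup H] : Prop :=
  (∀ α, Inv p G α = Inv p H α) ∧ InvInf p G = InvInf p H

/-- `Γ` is the graph of an isomorphism of a finite subgroup of `G` onto a finite subgroup of
`H` that preserves heights. -/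
structure Good (p : ℕ) {G H : Type} [AddCommGroup G] [AddCommGroup H]
    (Γ : AddSubgroup (G × H)) : Prop where
  fin : (Γ : Set (G × H)).Finite
  hgt : ∀ z ∈ Γ, ∀ α, z.1 ∈ Pw p G α ↔ z.2 ∈ Pw p H α
  inj : ∀ z ∈ Γ, z.1 = 0 ↔ z.2 = 0

/-- `p`-groups. -/
def PGrp (p : ℕ) (G : Type) [AddCommGroup G] : Prop := ∀ x : G, ∃ n : ℕ, (p ^ n) • x = 0

theorem mem_Pw {p : ℕ} {G : Type} [AddCommGroup G] {α : Ordinal.{0}} {x : G} :
    x ∈ Pw p G α ↔ ∀ β < α, ∃ y ∈ Pw p G β, p • y = x := by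
  rw [Pw, AddSubgroup.mem_iInf]
  constructor
  · intro h β hβ
    have h1 := h ⟨β, hβ⟩
    unfold mulp at h1
    rw [AddSubgroup.mem_map] at h1
    obtain ⟨y, hy, hyx⟩ := h1
    exact ⟨y, hy, hyx⟩
  · rintro h ⟨β, hβ⟩
    unfold mulp
    rw [AddSubgroup.mem_map]
    obtain ⟨y, hy, hyx⟩ := h β hβ
    exact ⟨y, hy, hyx⟩

theorem Pw_anti {p : ℕ} {G : Type} [AddCommGroup G] {α β : Ordinal.{0}} (h : β ≤ α) :
    Pw p G α ≤ Pw p G β := by
  intro x hx
  rw [mem_Pw] at hx ⊢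
  intro γ hγ
  exact hx γ (lt_of_lt_of_le hγ h)

theorem mem_Pw_zero {p : ℕ} {G : Type} [AddCommGroup G] (x : G) : x ∈ Pw p G 0 := by
  rw [mem_Pw]
  intro β hβ
  exact absurd hβ (not_lt_of_ge zero_le)

theorem mem_Pw_succ {p : ℕ} {G : Type} [AddCommGroup G] {α : Ordinal.{0}} {x : G} :
    x ∈ Pw p G (α + 1) ↔ ∃ y ∈ Pw p G α, p • y = x := by
  rw [mem_Pw]
  constructor
  · intro h
    exact h α (Order.lt_add_one_iff.2 le_rfl)
  · rintro ⟨y, hy, hyx⟩ β hβ
    exact ⟨y, Pw_anti (Order.lt_add_one_iff.1 hβ) hy, hyx⟩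

/-- The least `α` with `x ∉ p ^ α G` is a successor. -/
theorem exists_height {p : ℕ} {G : Type} [AddCommGroup G] {x : G} (h : ∃ α, x ∉ Pw p G α) :
    ∃ α, x ∈ Pw p G α ∧ x ∉ Pw p G (α + 1) := by
  by_contra hcon
  push Not at hcon
  obtain ⟨α, hα⟩ := h
  refine hα ?_
  clear hα
  induction α using WellFoundedLT.induction with
  | ind α ih =>
    rw [mem_Pw]
    intro β hβ
    exact mem_Pw_succ.1 (hcon β (ih β hβ))

/-- The `p`-primary component. -/
def Prim (p : ℕ) (G : Type) [AddCommGroup G] : AddSubgroup G where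
  carrier := {x | ∃ n : ℕ, (p ^ n) • x = 0}
  zero_mem' := ⟨0, smul_zero _⟩
  add_mem' := by
    rintro a b ⟨m, hm⟩ ⟨n, hn⟩
    refine ⟨m + n, ?_⟩
    rw [smul_add, pow_add, mul_comm, mul_smul, hm, smul_zero, mul_comm, mul_smul, hn, smul_zero,
      add_zero]
  neg_mem' := by
    rintro a ⟨m, hm⟩
    exact ⟨m, by rw [smul_neg, hm, neg_zero]⟩

end Pool.Agent.Helper317.Ulm
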