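import Pool.Agent.Helper317.Ulm.A1

/-!
The invariant at infinity.
-/

namespace Pool.Agent.Helper317.Ulm

theorem inf_cover {p : ℕ} {G H : Type} [AddCommGroup G] [AddCommGroup H]
    {Γ : AddSubgroup (G × H)} (hΓ : Good p Γ) (hinv : InvInf p G = InvInf p H)
    (hH : ∀ a ∈ SocInf p H, ∃ s, (s, a) ∈ Γ) : ∀ a ∈ SocInf p G, ∃ t, (a, t) ∈ Γ := by
  choose! s hs using hH
  have hmem : ∀ a ∈ SocInf p H, s a ∈ SocInf p G := by
    intro a ha
    have h1 := hs a ha
    refine ⟨fun α => (hΓ.hgt _ h1 α).2 (ha.1 α), ?_⟩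
    have h2 : p • (s a, a) ∈ Γ := Γ.nsmul_mem h1 p
    exact (hΓ.inj _ h2).2 ha.2
  let f : SocInf p H → SocInf p G := fun a => ⟨s a.1, hmem a.1 a.2⟩
  have hf : Function.Injective f := by
    intro a b hab
    have h1 : s a.1 = s b.1 := congrArg Subtype.val hab
    have h2 : (s a.1, (a.1:H)) - (s b.1, (b.1:H)) ∈ Γ := Γ.sub_mem (hs _ a.2) (hs _ b.2)
    have h3 : (a.1 : H) - b.1 = 0 := (hΓ.inj _ h2).1 (by
      show s a.1 - s b.1 = 0
      rw [h1, sub_self])
    exact Subtype.ext (sub_eq_zero.1 h3)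
  have hfinH : Finite (SocInf p H) := by
    have hfin : Finite Γ := hΓ.fin
    refine Finite.of_injective (fun a : SocInf p H => (⟨(s a.1, a.1), hs _ a.2⟩ : Γ)) ?_
    intro a b h
    have h1 : ((s a.1, (a.1 : H)) : G × H) = (s b.1, b.1) := congrArg Subtype.val h
    exact Subtype.ext (congrArg Prod.snd h1)
  have hcard : Nat.card (SocInf p G) = Nat.card (SocInf p H) := hinv
  have hfinG : Finite (SocInf p G) := Nat.finite_of_card_ne_zero (by
    rw [hcard]
    exact Nat.card_pos.ne')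
  have hsurj : Function.Surjective f := (hf.bijective_of_nat_card_le hcard.le).2
  intro a ha
  obtain ⟨b, hb⟩ := hsurj ⟨a, ha⟩
  have h1 : s b.1 = a := congrArg Subtype.val hb
  refine ⟨b.1, ?_⟩
  rw [← h1]
  exact hs _ b.2

end Pool.Agent.Helper317.Ulm
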