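import Pool.Agent.Helper317.Ulm.A1

/-!
The part of infinite height is divisible.
-/

namespace Pool.Agent.Helper317.Ulm


theorem div_inf {p : ℕ} {H : Type} [AddCommGroup H] [Countable H] {x : H}
    (hx : ∀ α, x ∈ Pw p H α) : ∃ y, (∀ α, y ∈ Pw p H α) ∧ p • y = x := by
  by_contra hcon
  have h1 : ∀ y : {y : H // p • y = x}, ∃ α : Ordinal.{0}, (y : H) ∉ Pw p H α := by
    intro y
    by_contra hy
    push Not at hy
    exact hcon ⟨y.1, hy, y.2⟩
  choose a ha using h1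
  obtain ⟨y, hy, hyx⟩ := mem_Pw_succ.1 (hx (iSup a + 1))
  exact ha ⟨y, hyx⟩ (Pw_anti (Ordinal.le_iSup a ⟨y, hyx⟩) hy)

end Pool.Agent.Helper317.Ulm
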