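import Pool.Agent.Helper317.Ulm.A4
import Pool.Agent.Helper317.Ulm.A5
import Pool.Agent.Helper317.Ulm.A6

/-!
The image of a new element.
-/

namespace Pool.Agent.Helper317.Ulm


theorem exists_witness {p : ℕ} {G H : Type} [AddCommGroup G] [AddCommGroup H] [Countable H]
    (hU : SameUlm p G H) {Γ : AddSubgroup (G × H)} (hΓ : Good p Γ) {x : G} {z0 : H}
    (hz0 : (p • x, z0) ∈ Γ) (hx : ∀ w, (x, w) ∉ Γ)
    (h1 : ∀ z ∈ Γ, ∀ α, x + z.1 ∈ Pw p G α → x ∈ Pw p G α)
    (h2 : ∀ z ∈ Γ, (∀ α, x ∈ Pw p G α → x + z.1 ∈ Pw p G α) →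
      ∀ α, p • (x + z.1) ∈ Pw p G α → p • x ∈ Pw p G α) :
    ∃ w : H, p • w = z0 ∧ (∀ s, (s, w) ∉ Γ) ∧
      ∀ z ∈ Γ, ∀ α, x + z.1 ∈ Pw p G α ↔ w + z.2 ∈ Pw p H α := by
  classical
  have hz0' : ∀ α, p • x ∈ Pw p G α → z0 ∈ Pw p H α := fun α h => (hΓ.hgt _ hz0 α).mp h
  by_cases hA : ∀ α, x ∈ Pw p G α
  · have hpx : ∀ α, p • x ∈ Pw p G α := fun α => nsmul_mem (hA α) p
    have hz : ∀ α, z0 ∈ Pw p H α := fun α => hz0' α (hpx α)
    obtain ⟨w0, hw0, hpw0⟩ := div_inf hz
    have hex : ∃ a ∈ SocInf p H, ∀ s, (s, w0 + a) ∉ Γ := by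
      by_contra hcon
      push Not at hcon
      obtain ⟨s0, hs0⟩ := hcon 0 (zero_mem _)
      rw [add_zero] at hs0
      have hH : ∀ a ∈ SocInf p H, ∃ s, (s, a) ∈ Γ := by
        intro a ha
        obtain ⟨s, hs⟩ := hcon a ha
        refine ⟨s - s0, ?_⟩
        have := sub_mem hs hs0
        simpa using this
      have hG := inf_cover hΓ hU.2 hH
      have hs0P : ∀ α, s0 ∈ Pw p G α := fun α => (hΓ.hgt _ hs0 α).mpr (hw0 α)
      have hmem : (p • s0 - p • x, p • w0 - z0) ∈ Γ := by
        have h := sub_mem (nsmul_mem hs0 p) hz0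
        simpa using h
      have hps : p • s0 - p • x = 0 := (hΓ.inj _ hmem).mpr (by simp [hpw0])
      have hxs : x - s0 ∈ SocInf p G := by
        refine ⟨fun α => sub_mem (hA α) (hs0P α), ?_⟩
        rw [smul_sub]
        rw [← neg_sub, hps, neg_zero]
      obtain ⟨t, ht⟩ := hG _ hxs
      apply hx (t + w0)
      have := add_mem ht hs0
      simpa using this
    obtain ⟨a, ha, hs⟩ := hex
    refine ⟨w0 + a, ?_, hs, ?_⟩
    · rw [smul_add, hpw0, ha.2, add_zero]
    · intro z hz α
      have e1 : x + z.1 ∈ Pw p G α ↔ z.1 ∈ Pw p G α := by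
        constructor
        · intro h
          have := sub_mem h (hA α)
          simpa using this
        · intro h
          exact add_mem (hA α) h
      have hwa : w0 + a ∈ Pw p H α := add_mem (hw0 α) (ha.1 α)
      have e2 : (w0 + a) + z.2 ∈ Pw p H α ↔ z.2 ∈ Pw p H α := by
        constructor
        · intro h
          have := sub_mem h hwa
          simpa using this
        · intro h
          exact add_mem hwa h
      rw [e1, e2]
      exact hΓ.hgt z hz α
  · push Not at hA
    obtain ⟨α, hxα, hxα1⟩ := exists_height hA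
    have hpx1 : p • x ∈ Pw p G (α + 1) := mem_Pw_succ.mpr ⟨x, hxα, rfl⟩
    have hz1 : z0 ∈ Pw p H (α + 1) := hz0' _ hpx1
    have hxle : ∀ β, x ∈ Pw p G β → β ≤ α := by
      intro β hβ
      by_contra h
      have h' : α + 1 ≤ β := by
        rw [← Order.succ_eq_add_one]
        exact Order.succ_le_of_lt (not_le.mp h)
      exact hxα1 (Pw_anti h' hβ)
    have main : ∃ w : H, w ∈ Pw p H α ∧ p • w = z0 ∧ ∀ z ∈ Γ, w + z.2 ∉ Pw p H (α + 1) := by
      by_cases hB : p • x ∈ Pw p G (α + 1 + 1)
      · obtain ⟨v, hv, hpv⟩ := mem_Pw_succ.mp hB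
        have hz2 : z0 ∈ Pw p H (α + 1 + 1) := hz0' _ hB
        obtain ⟨w1, hw1, hpw1⟩ := mem_Pw_succ.mp hz2
        have hle : α ≤ α + 1 := le_self_add
        have hxv : x - v ∈ Soc p G α := by
          refine ⟨sub_mem hxα (Pw_anti hle hv), ?_⟩
          rw [smul_sub, hpv, sub_self]
        have hnc : ¬ (∀ a ∈ Soc p H α, ∃ z ∈ Γ, z.2 - a ∈ Pw p H (α + 1)) := by
          intro hcov
          obtain ⟨z, hz, hzm⟩ := idx_cover hΓ α (hU.1 α) hcov _ hxv
          have h3 : x + (-z).1 ∈ Pw p G (α + 1) := by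
            have h4 := sub_mem hv hzm
            have : v - (z.1 - (x - v)) = x + (-z).1 := by
              simp only [Prod.fst_neg]; abel
            rwa [this] at h4
          exact hxα1 (h1 (-z) (neg_mem hz) _ h3)
        push Not at hnc
        obtain ⟨a, ha, hac⟩ := hnc
        refine ⟨w1 + a, add_mem (Pw_anti hle hw1) ha.1, ?_, ?_⟩
        · rw [smul_add, hpw1, ha.2, add_zero]
        · intro z hz hmem
          apply hac (-z) (neg_mem hz)
          have h4 := sub_mem hw1 hmem
          have : w1 - (w1 + a + z.2) = (-z).2 - a := by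
            simp only [Prod.snd_neg]; abel
          rwa [this] at h4
      · obtain ⟨w, hw, hpw⟩ := mem_Pw_succ.mp hz1
        refine ⟨w, hw, hpw, ?_⟩
        intro z hz hmem
        have hle : α ≤ α + 1 := le_self_add
        have hz2 : z.2 ∈ Pw p H α := by
          have := sub_mem (Pw_anti hle hmem) hw
          simpa using this
        have hz1' : z.1 ∈ Pw p G α := (hΓ.hgt z hz α).mpr hz2
        have h5 : p • (w + z.2) ∈ Pw p H (α + 1 + 1) := mem_Pw_succ.mpr ⟨_, hmem, rfl⟩
        have h6 : (p • (x + z.1), p • (w + z.2)) ∈ Γ := by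
          have := add_mem hz0 (nsmul_mem hz p)
          rw [smul_add, smul_add, hpw]
          exact this
        have h7 : p • (x + z.1) ∈ Pw p G (α + 1 + 1) := (hΓ.hgt _ h6 _).mpr h5
        apply hB
        refine h2 z hz ?_ _ h7
        intro β hβ
        exact Pw_anti (hxle β hβ) (add_mem hxα hz1')
    obtain ⟨w, hw, hpw, hwz⟩ := main
    refine ⟨w, hpw, ?_, ?_⟩
    · intro s hs
      apply hwz (-(s, w)) (neg_mem hs)
      simp [zero_mem]
    · intro z hz β
      by_cases hβ : β ≤ α
      · have hxβ : x ∈ Pw p G β := Pw_anti hβ hxα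
        have hwβ : w ∈ Pw p H β := Pw_anti hβ hw
        have e1 : x + z.1 ∈ Pw p G β ↔ z.1 ∈ Pw p G β := by
          constructor
          · intro h
            have := sub_mem h hxβ
            simpa using this
          · intro h
            exact add_mem hxβ h
        have e2 : w + z.2 ∈ Pw p H β ↔ z.2 ∈ Pw p H β := by
          constructor
          · intro h
            have := sub_mem h hwβ
            simpa using this
          · intro h
            exact add_mem hwβ h
        rw [e1, e2]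
        exact hΓ.hgt z hz β
      · have h' : α + 1 ≤ β := by
          rw [← Order.succ_eq_add_one]
          exact Order.succ_le_of_lt (not_le.mp hβ)
        constructor
        · intro h
          exact absurd (h1 z hz _ (Pw_anti h' h)) hxα1
        · intro h
          exact absurd (Pw_anti h' h) (hwz z hz)

end Pool.Agent.Helper317.Ulm
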