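import Pool.Agent.Helper317.Ulm.A1

/-!
Extension by one element.
-/

namespace Pool.Agent.Helper317.Ulm


theorem exists_inv_smul {p : ℕ} (hp : p.Prime) {k : ℤ} (hk : ¬ (p : ℤ) ∣ k) (N : ℕ) :
    ∃ a : ℤ, ∀ {A : Type} [AddCommGroup A] (y : A), (p ^ N) • y = 0 → (a * k) • y = y := by
  have hcop : IsCoprime k ((p : ℤ) ^ N) := by
    apply IsCoprime.pow_right
    exact ((Prime.coprime_iff_not_dvd (Nat.prime_iff_prime_int.1 hp)).2 hk).symm
  obtain ⟨a, b, hab⟩ := hcop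
  refine ⟨a, fun {A} _ y hy => ?_⟩
  have h1 : a * k = 1 - b * (p : ℤ) ^ N := by linarith
  have h2 : ((p : ℤ) ^ N) • y = 0 := by
    have : ((p : ℤ) ^ N) • y = ((p ^ N : ℕ) : ℤ) • y := by push_cast; rfl
    rw [this, natCast_zsmul, hy]
  rw [h1, sub_smul, one_smul, mul_smul, h2, smul_zero, sub_zero]

theorem PGrp.kill {p : ℕ} {G : Type} [AddCommGroup G] (hG : PGrp p G) (x : G) :
    ∃ n : ℕ, ∀ m : ℕ, n ≤ m → (p ^ m) • x = 0 := by
  obtain ⟨n, hn⟩ := hG x
  refine ⟨n, fun m hm => ?_⟩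
  obtain ⟨k, rfl⟩ := Nat.exists_eq_add_of_le hm
  rw [pow_add, mul_comm, mul_smul, hn, smul_zero]

theorem extend_one {p : ℕ} (hp : p.Prime) {G H : Type} [AddCommGroup G] [AddCommGroup H]
    (hG : PGrp p G) (hH : PGrp p H) {Γ : AddSubgroup (G × H)} (hΓ : Good p Γ) {x : G} {w : H}
    (hz : (p • x, p • w) ∈ Γ) (hx : ∀ w', (x, w') ∉ Γ) (hw : ∀ s, (s, w) ∉ Γ)
    (h : ∀ z ∈ Γ, ∀ α, x + z.1 ∈ Pw p G α ↔ w + z.2 ∈ Pw p H α) :
    ∃ Γ' : AddSubgroup (G × H), Good p Γ' ∧ Γ ≤ Γ' ∧ (x, w) ∈ Γ' := by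
  classical
  have hpZ : (0 : ℤ) < (p : ℤ) := by exact_mod_cast hp.pos
  -- structure of elements
  have hmem : ∀ u : G × H, u ∈ Γ ⊔ AddSubgroup.zmultiples (x, w) ↔
      ∃ z ∈ Γ, ∃ k : ℤ, u = z + k • (x, w) := by
    intro u
    rw [AddSubgroup.mem_sup]
    constructor
    · rintro ⟨z, hz, y, hy, rfl⟩
      obtain ⟨k, rfl⟩ := AddSubgroup.mem_zmultiples_iff.1 hy
      exact ⟨z, hz, k, rfl⟩
    · rintro ⟨z, hz, k, rfl⟩
      exact ⟨z, hz, _, AddSubgroup.mem_zmultiples_iff.2 ⟨k, rfl⟩, rfl⟩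
  have hdvd : ∀ k : ℤ, (p : ℤ) ∣ k → k • (x, w) ∈ Γ := by
    rintro k ⟨q, rfl⟩
    rw [mul_comm, mul_smul]
    refine zsmul_mem ?_ q
    rw [natCast_zsmul]
    exact hz
  -- inverse of k
  have hinv : ∀ z : G × H, ∀ k : ℤ, ¬ (p : ℤ) ∣ k → ∃ a : ℤ,
      (a * k) • x = x ∧ (a * k) • w = w ∧ (a * k) • z.1 = z.1 ∧ (a * k) • z.2 = z.2 := by
    intro z k hk
    obtain ⟨n1, h1⟩ := hG.kill x
    obtain ⟨n2, h2⟩ := hH.kill w
    obtain ⟨n3, h3⟩ := hG.kill z.1
    obtain ⟨n4, h4⟩ := hH.kill z.2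
    obtain ⟨a, ha⟩ := exists_inv_smul hp hk (n1 + n2 + n3 + n4)
    exact ⟨a, ha x (h1 _ (by omega)), ha w (h2 _ (by omega)), ha z.1 (h3 _ (by omega)),
      ha z.2 (h4 _ (by omega))⟩
  have hiff : ∀ {A : Type} [AddCommGroup A] (y : A) (a k : ℤ) (α : Ordinal.{0}),
      (a * k) • y = y → (y ∈ Pw p A α ↔ a • y ∈ Pw p A α) := by
    intro A _ y a k α hy
    constructor
    · intro hm; exact zsmul_mem hm a
    · intro hm
      have := zsmul_mem hm k
      rwa [← mul_smul, mul_comm, hy] at this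
  refine ⟨Γ ⊔ AddSubgroup.zmultiples (x, w), ⟨?_, ?_, ?_⟩, le_sup_left, ?_⟩
  · -- finiteness
    have hfin : ((fun q : (G × H) × ℕ => q.1 + (q.2 : ℤ) • (x, w)) ''
        ((Γ : Set (G × H)) ×ˢ (Finset.range p : Set ℕ))).Finite :=
      (hΓ.fin.prod (Finset.finite_toSet _)).image _
    refine hfin.subset ?_
    intro u hu
    obtain ⟨z, hzΓ, k, rfl⟩ := (hmem u).1 hu
    have hk := Int.emod_add_mul_ediv k p
    have hr0 := Int.emod_nonneg k hpZ.ne'
    have hr1 := Int.emod_lt_of_pos k hpZ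
    obtain ⟨r, hr⟩ := Int.eq_ofNat_of_zero_le hr0
    refine ⟨(z + ((p : ℤ) * (k / p)) • (x, w), r), ⟨?_, ?_⟩, ?_⟩
    · exact add_mem hzΓ (hdvd _ (dvd_mul_right _ _))
    · rw [hr] at hr1
      simp only [Finset.coe_range, Set.mem_Iio]
      exact_mod_cast hr1
    · change z + ((p : ℤ) * (k / p)) • (x, w) + (r : ℤ) • (x, w) = z + k • (x, w)
      rw [add_assoc, ← add_smul]
      congr 2
      rw [← hr]
      linarith
  · -- heights
    intro u hu α
    obtain ⟨z, hzΓ, k, rfl⟩ := (hmem u).1 hu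
    by_cases hk : (p : ℤ) ∣ k
    · exact hΓ.hgt _ (add_mem hzΓ (hdvd k hk)) α
    · obtain ⟨a, e1, e2, e3, e4⟩ := hinv z k hk
      have g1 : (a * k) • (z + k • (x, w)).1 = (z + k • (x, w)).1 := by
        change (a * k) • (z.1 + k • x) = z.1 + k • x
        rw [smul_add, e3, ← mul_smul, mul_comm (a * k) k, mul_smul, e1]
      have g2 : (a * k) • (z + k • (x, w)).2 = (z + k • (x, w)).2 := by
        change (a * k) • (z.2 + k • w) = z.2 + k • w
        rw [smul_add, e4, ← mul_smul, mul_comm (a * k) k, mul_smul, e2]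
      rw [hiff _ a k α g1, hiff _ a k α g2]
      have g3 : a • (z + k • (x, w)).1 = x + (a • z).1 := by
        change a • (z.1 + k • x) = x + a • z.1
        rw [smul_add, ← mul_smul, e1, add_comm]
      have g4 : a • (z + k • (x, w)).2 = w + (a • z).2 := by
        change a • (z.2 + k • w) = w + a • z.2
        rw [smul_add, ← mul_smul, e2, add_comm]
      rw [g3, g4]
      exact h _ (zsmul_mem hzΓ a) α
  · -- injectivity
    intro u hu
    obtain ⟨z, hzΓ, k, rfl⟩ := (hmem u).1 hu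
    by_cases hk : (p : ℤ) ∣ k
    · exact hΓ.inj _ (add_mem hzΓ (hdvd k hk))
    · obtain ⟨a, e1, e2, e3, e4⟩ := hinv z k hk
      constructor
      · intro h0
        exfalso
        have h0' : z.1 + k • x = 0 := h0
        have h1 : a • (z.1 + k • x) = 0 := by rw [h0', smul_zero]
        rw [smul_add, ← mul_smul, e1] at h1
        have h2 : x = -(a • z.1) := by
          rw [eq_neg_iff_add_eq_zero, add_comm]; exact h1
        apply hx (-(a • z.2))
        have h3 : (x, -(a • z.2)) = -(a • z) := by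
          rw [h2]; rfl
        rw [h3]
        exact neg_mem (zsmul_mem hzΓ a)
      · intro h0
        exfalso
        have h0' : z.2 + k • w = 0 := h0
        have h1 : a • (z.2 + k • w) = 0 := by rw [h0', smul_zero]
        rw [smul_add, ← mul_smul, e2] at h1
        have h2 : w = -(a • z.2) := by
          rw [eq_neg_iff_add_eq_zero, add_comm]; exact h1
        apply hw (-(a • z.1))
        have h3 : (-(a • z.1), w) = -(a • z) := by
          rw [h2]; rfl
        rw [h3]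
        exact neg_mem (zsmul_mem hzΓ a)
  · exact (le_sup_right : AddSubgroup.zmultiples (x, w) ≤ _) (AddSubgroup.mem_zmultiples _)

end Pool.Agent.Helper317.Ulm
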