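import Pool.Agent.Helper317.Ulm.A3
import Pool.Agent.Helper317.Ulm.A7
import Pool.Agent.Helper317.Ulm.A8

/-!
Extension lemma.
-/

namespace Pool.Agent.Helper317.Ulm


theorem extend {p : ℕ} (hp : p.Prime) {G H : Type} [AddCommGroup G] [AddCommGroup H]
    [Countable H] (hG : PGrp p G) (hH : PGrp p H) (hU : SameUlm p G H)
    {Γ : AddSubgroup (G × H)} (hΓ : Good p Γ) (x : G) :
    ∃ Γ' : AddSubgroup (G × H), Good p Γ' ∧ Γ ≤ Γ' ∧ ∃ w, (x, w) ∈ Γ' := by
  obtain ⟨n, hn⟩ := hG x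
  induction n generalizing x Γ with
  | zero =>
    rw [pow_zero, one_smul] at hn
    refine ⟨Γ, hΓ, le_rfl, 0, ?_⟩
    rw [hn]
    exact Γ.zero_mem
  | succ n ih =>
    rw [pow_succ, mul_smul] at hn
    obtain ⟨Γ1, hΓ1, hle, z, hz⟩ := ih hΓ (p • x) hn
    by_cases h : ∃ w, (x, w) ∈ Γ1
    · exact ⟨Γ1, hΓ1, hle, h⟩
    · push Not at h
      obtain ⟨z0, hz0, hA, hB⟩ := exists_proper hΓ1.fin x
      have hm1 : (p • (x + z0.1), z + p • z0.2) ∈ Γ1 := by
        have h1 := Γ1.add_mem hz (Γ1.nsmul_mem hz0 p)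
        have h2 : (p • x, z) + p • z0 = (p • (x + z0.1), z + p • z0.2) := by
          ext
          · simp [smul_add]
          · simp
        rw [h2] at h1
        exact h1
      have hm2 : ∀ w, (x + z0.1, w) ∉ Γ1 := by
        intro w hw
        have h1 := Γ1.sub_mem hw hz0
        have h2 : (x + z0.1, w) - z0 = (x, w - z0.2) := by
          ext
          · simp
          · simp
        rw [h2] at h1
        exact h _ h1
      obtain ⟨w, hw1, hw2, hw3⟩ := exists_witness hU hΓ1 hm1 hm2 hA hB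
      obtain ⟨Γ2, hΓ2, hle2, hmem⟩ := extend_one hp hG hH hΓ1 (x := x + z0.1) (w := w)
        (by rw [hw1]; exact hm1) hm2 hw2 hw3
      refine ⟨Γ2, hΓ2, hle.trans hle2, w - z0.2, ?_⟩
      have h1 := Γ2.sub_mem hmem (hle2 hz0)
      have h2 : (x + z0.1, w) - z0 = (x, w - z0.2) := by
        ext
        · simp
        · simp
      rw [h2] at h1
      exact h1

end Pool.Agent.Helper317.Ulm
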