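import Pool.Agent.Helper317.Ulm.A2
import Pool.Agent.Helper317.Ulm.A9

/-!
Ulm theorem.
-/

namespace Pool.Agent.Helper317.Ulm


theorem sameUlm_symm444 {p : ℕ} {G H : Type} [AddCommGroup G] [AddCommGroup H]
    (h : SameUlm p G H) : SameUlm p H G := ⟨fun α => (h.1 α).symm, h.2.symm⟩

/-- the swapped graph -/
def swp444 {G H : Type} [AddCommGroup G] [AddCommGroup H] (Γ : AddSubgroup (G × H)) :
    AddSubgroup (H × G) where
  carrier := {z | (z.2, z.1) ∈ Γ}
  zero_mem' := Γ.zero_mem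
  add_mem' := fun {a b} ha hb => Γ.add_mem ha hb
  neg_mem' := fun {a} ha => Γ.neg_mem ha

theorem mem_swp444 {G H : Type} [AddCommGroup G] [AddCommGroup H] {Γ : AddSubgroup (G × H)}
    {z : H × G} : z ∈ swp444 Γ ↔ (z.2, z.1) ∈ Γ := Iff.rfl

theorem good_swp444 {p : ℕ} {G H : Type} [AddCommGroup G] [AddCommGroup H]
    {Γ : AddSubgroup (G × H)} (h : Good p Γ) : Good p (swp444 Γ) where
  fin := by
    have h1 : (swp444 Γ : Set (H × G)) = Prod.swap '' (Γ : Set (G × H)) := by
      ext z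
      constructor
      · intro hz
        exact ⟨(z.2, z.1), hz, rfl⟩
      · rintro ⟨w, hw, rfl⟩
        exact hw
    rw [h1]
    exact h.fin.image _
  hgt := fun z hz α => (h.hgt _ (mem_swp444.1 hz) α).symm
  inj := fun z hz => (h.inj _ (mem_swp444.1 hz)).symm

/-- Ulm's theorem for countable `p`-groups (not necessarily reduced). -/
theorem ulm {p : ℕ} (hp : p.Prime) {G H : Type} [AddCommGroup G] [AddCommGroup H]
    [Countable G] [Countable H] (hG : PGrp p G) (hH : PGrp p H) (hU : SameUlm p G H) :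
    Nonempty (G ≃+ H) := by
  refine backforth {Γ | Good p Γ} ⟨⊥, ?_⟩ (fun Γ hΓ => Good.inj hΓ) ?_ ?_
  · refine ⟨?_, ?_, ?_⟩
    · rw [AddSubgroup.coe_bot]; exact Set.finite_singleton _
    · intro z hz α
      rw [AddSubgroup.mem_bot] at hz
      subst hz
      exact ⟨fun _ => zero_mem _, fun _ => zero_mem _⟩
    · intro z hz
      rw [AddSubgroup.mem_bot] at hz
      subst hz
      exact ⟨fun _ => rfl, fun _ => rfl⟩
  · intro Γ hΓ x
    exact extend hp hG hH hU hΓ x
  · intro Γ hΓ y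
    obtain ⟨Γ', hg, hle, w, hw⟩ := extend hp hH hG (sameUlm_symm444 hU) (good_swp444 hΓ) y
    refine ⟨swp444 Γ', good_swp444 hg, ?_, w, hw⟩
    intro z hz
    exact hle (show (z.2, z.1) ∈ swp444 Γ from hz)

end Pool.Agent.Helper317.Ulm
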