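import Pool.Agent.Helper317.Ulm.A1

/-!
Ulm invariants and isomorphisms.
-/

namespace Pool.Agent.Helper317.Ulm


-- TARGET (prove all; auxiliary lemmas welcome)
theorem Pw_fwd {p : ℕ} {G H : Type} [AddCommGroup G] [AddCommGroup H] (e : G ≃+ H)
    (α : Ordinal.{0}) : ∀ x : G, x ∈ Pw p G α → e x ∈ Pw p H α := by
  induction α using WellFoundedLT.induction with
  | ind α ih =>
    intro x hx
    rw [mem_Pw] at hx ⊢
    intro β hβ
    obtain ⟨y, hy, rfl⟩ := hx β hβ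
    exact ⟨e y, ih β hβ y hy, (map_nsmul e p y).symm⟩

theorem Pw_equiv {p : ℕ} {G H : Type} [AddCommGroup G] [AddCommGroup H] (e : G ≃+ H)
    (α : Ordinal.{0}) (x : G) : x ∈ Pw p G α ↔ e x ∈ Pw p H α := by
  refine ⟨Pw_fwd e α x, fun h => ?_⟩
  have := Pw_fwd e.symm α (e x) h
  rwa [e.symm_apply_apply] at this

theorem smul_equiv {p : ℕ} {G H : Type} [AddCommGroup G] [AddCommGroup H] (e : G ≃+ H)
    (x : G) : p • x = 0 ↔ p • e x = 0 := by
  rw [← map_nsmul, e.map_eq_zero_iff]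

theorem Soc_equiv {p : ℕ} {G H : Type} [AddCommGroup G] [AddCommGroup H] (e : G ≃+ H)
    (α : Ordinal.{0}) : Soc p G α = (Soc p H α).comap (e : G →+ H) := by
  ext x
  show (x ∈ Pw p G α ∧ p • x = 0) ↔ (e x ∈ Pw p H α ∧ p • e x = 0)
  rw [Pw_equiv e, smul_equiv e]

theorem Inv_equiv {p : ℕ} {G H : Type} [AddCommGroup G] [AddCommGroup H] (e : G ≃+ H)
    (α : Ordinal.{0}) : Inv p G α = Inv p H α := by
  unfold Inv
  rw [Soc_equiv e (α + 1), AddSubgroup.relIndex_comap, Soc_equiv e α,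
    AddSubgroup.map_comap_eq_self_of_surjective (f := (e : G →+ H)) e.surjective]

theorem InvInf_equiv {p : ℕ} {G H : Type} [AddCommGroup G] [AddCommGroup H] (e : G ≃+ H) :
    InvInf p G = InvInf p H := by
  unfold InvInf
  refine Nat.card_congr ?_
  refine (e : G ≃ H).subtypeEquiv ?_
  intro x
  show ((∀ α, x ∈ Pw p G α) ∧ p • x = 0) ↔ ((∀ α, e x ∈ Pw p H α) ∧ p • e x = 0)
  rw [smul_equiv e]
  constructor
  · rintro ⟨h1, h2⟩
    exact ⟨fun α => (Pw_equiv e α x).1 (h1 α), h2⟩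
  · rintro ⟨h1, h2⟩
    exact ⟨fun α => (Pw_equiv e α x).2 (h1 α), h2⟩

end Pool.Agent.Helper317.Ulm
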