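import Pool.Agent.Helper317.Ulm.A1

/-!
Back-and-forth.
-/

namespace Pool.Agent.Helper317.Ulm

theorem backforth {G H : Type} [AddCommGroup G] [AddCommGroup H] [Countable G] [Countable H]
    (C : Set (AddSubgroup (G × H))) (h0 : C.Nonempty)
    (hinj : ∀ Γ ∈ C, ∀ z ∈ Γ, z.1 = 0 ↔ z.2 = 0)
    (forth : ∀ Γ ∈ C, ∀ x : G, ∃ Γ' ∈ C, Γ ≤ Γ' ∧ ∃ w, (x, w) ∈ Γ')
    (back : ∀ Γ ∈ C, ∀ y : H, ∃ Γ' ∈ C, Γ ≤ Γ' ∧ ∃ w, (w, y) ∈ Γ') : Nonempty (G ≃+ H) := by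
  classical
  obtain ⟨xs, hxs⟩ := exists_surjective_nat G
  obtain ⟨ys, hys⟩ := exists_surjective_nat H
  have step : ∀ (n : ℕ) (Γ : {Γ : AddSubgroup (G × H) // Γ ∈ C}),
      ∃ Γ' : {Γ : AddSubgroup (G × H) // Γ ∈ C}, Γ.1 ≤ Γ'.1 ∧ (∃ w, (xs n, w) ∈ Γ'.1) ∧
        (∃ w, (w, ys n) ∈ Γ'.1) := by
    intro n Γ
    obtain ⟨Γ1, h1, hle1, w1, hw1⟩ := forth Γ.1 Γ.2 (xs n)
    obtain ⟨Γ2, h2, hle2, w2, hw2⟩ := back Γ1 h1 (ys n)
    exact ⟨⟨Γ2, h2⟩, le_trans hle1 hle2, ⟨w1, hle2 hw1⟩, ⟨w2, hw2⟩⟩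
  choose next hle hnx hny using step
  obtain ⟨Γ0, hΓ0⟩ := h0
  let seq : ℕ → {Γ : AddSubgroup (G × H) // Γ ∈ C} := fun n => Nat.rec ⟨Γ0, hΓ0⟩ (fun k Γ => next k Γ) n
  have hseq : ∀ n, seq (n + 1) = next n (seq n) := fun n => rfl
  have hmono : Monotone (fun n => (seq n).1) := by
    apply monotone_nat_of_le_succ
    intro n
    show (seq n).1 ≤ (seq (n + 1)).1
    rw [hseq]; exact hle n (seq n)
  let R : G → H → Prop := fun x y => ∃ n, (x, y) ∈ (seq n).1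
  have hRx : ∀ x, ∃ y, R x y := by
    intro x
    obtain ⟨n, rfl⟩ := hxs x
    obtain ⟨w, hw⟩ := hnx n (seq n)
    exact ⟨w, n + 1, hw⟩
  have hRy : ∀ y, ∃ x, R x y := by
    intro y
    obtain ⟨n, rfl⟩ := hys y
    obtain ⟨w, hw⟩ := hny n (seq n)
    exact ⟨w, n + 1, hw⟩
  have hRadd : ∀ x y x' y', R x y → R x' y' → R (x + x') (y + y') := by
    rintro x y x' y' ⟨n, hn⟩ ⟨m, hm⟩
    refine ⟨max n m, ?_⟩
    have h1 : (x, y) ∈ (seq (max n m)).1 := hmono (le_max_left n m) hn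
    have h2 : (x', y') ∈ (seq (max n m)).1 := hmono (le_max_right n m) hm
    exact add_mem h1 h2
  have hRneg : ∀ x y, R x y → R (-x) (-y) := by
    rintro x y ⟨n, hn⟩
    exact ⟨n, neg_mem hn⟩
  have hR0 : ∀ x y, R x y → (x = 0 ↔ y = 0) := by
    rintro x y ⟨n, hn⟩
    exact hinj (seq n).1 (seq n).2 (x, y) hn
  have hRux : ∀ x y y', R x y → R x y' → y = y' := by
    intro x y y' h1 h2
    have h3 := hRadd _ _ _ _ h1 (hRneg _ _ h2)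
    have h4 := (hR0 _ _ h3).mp (by simp)
    have : y - y' = 0 := by rw [sub_eq_add_neg]; exact h4
    exact sub_eq_zero.mp this
  have hRuy : ∀ x x' y, R x y → R x' y → x = x' := by
    intro x x' y h1 h2
    have h3 := hRadd _ _ _ _ h1 (hRneg _ _ h2)
    have h4 := (hR0 _ _ h3).mpr (by simp)
    have : x - x' = 0 := by rw [sub_eq_add_neg]; exact h4
    exact sub_eq_zero.mp this
  choose f hf using hRx
  have hfadd : ∀ x x', f (x + x') = f x + f x' := by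
    intro x x'
    exact hRux _ _ _ (hf (x + x')) (hRadd _ _ _ _ (hf x) (hf x'))
  refine ⟨AddEquiv.ofBijective (AddMonoidHom.mk' f hfadd) ⟨?_, ?_⟩⟩
  · intro x x' h
    have h' : f x = f x' := h
    have h1 := hf x
    rw [h'] at h1
    exact hRuy _ _ _ h1 (hf x')
  · intro y
    obtain ⟨x, hx⟩ := hRy y
    exact ⟨x, hRux _ _ _ (hf x) hx⟩

end Pool.Agent.Helper317.Ulm
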