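import Pool.Agent.Helper317.Ulm.A1

/-!
Elements of maximal height in a coset.
-/

namespace Pool.Agent.Helper317.Ulm


theorem I_total_8297 {p : ℕ} {G : Type} [AddCommGroup G] (y y' : G) :
    {α | y ∈ Pw p G α} ⊆ {α | y' ∈ Pw p G α} ∨ {α | y' ∈ Pw p G α} ⊆ {α | y ∈ Pw p G α} := by
  by_contra hcon
  push Not at hcon
  obtain ⟨h1, h2⟩ := hcon
  rw [Set.not_subset] at h1 h2
  obtain ⟨α, ha, ha'⟩ := h1
  obtain ⟨β, hb, hb'⟩ := h2
  rcases le_total α β with h | h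
  · exact ha' (Pw_anti h hb)
  · exact hb' (Pw_anti h ha)

theorem exists_proper {p : ℕ} {G H : Type} [AddCommGroup G] [AddCommGroup H]
    {Γ : AddSubgroup (G × H)} (hfin : (Γ : Set (G × H)).Finite) (x : G) :
    ∃ z0 ∈ Γ, (∀ z ∈ Γ, ∀ α, (x + z0.1) + z.1 ∈ Pw p G α → x + z0.1 ∈ Pw p G α) ∧
      ∀ z ∈ Γ, (∀ α, x + z0.1 ∈ Pw p G α → (x + z0.1) + z.1 ∈ Pw p G α) →
        ∀ α, p • ((x + z0.1) + z.1) ∈ Pw p G α → p • (x + z0.1) ∈ Pw p G α := by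
  obtain ⟨z1, hz1, hmax1⟩ := Set.Finite.exists_maximalFor
    (fun z : G × H => {α | x + z.1 ∈ Pw p G α}) (Γ : Set (G × H)) hfin ⟨0, Γ.zero_mem⟩
  have hmax1' : ∀ z ∈ Γ, {α | x + z.1 ∈ Pw p G α} ⊆ {α | x + z1.1 ∈ Pw p G α} := by
    intro z hz
    rcases I_total_8297 (p := p) (x + z.1) (x + z1.1) with h | h
    · exact h
    · exact hmax1 hz h
  have hfin2 : {z : G × H | z ∈ Γ ∧ {α | x + z.1 ∈ Pw p G α} = {α | x + z1.1 ∈ Pw p G α}}.Finite :=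
    hfin.subset (fun z hz => hz.1)
  obtain ⟨z0, hz0, hmax0⟩ := Set.Finite.exists_maximalFor
    (fun z : G × H => {α | p • (x + z.1) ∈ Pw p G α}) _ hfin2 ⟨z1, hz1, rfl⟩
  have hadd : ∀ z : G × H, (x + z0.1) + z.1 = x + (z0 + z).1 := by
    intro z
    rw [Prod.fst_add, add_assoc]
  refine ⟨z0, hz0.1, ?_, ?_⟩
  · intro z hz α h
    rw [hadd] at h
    have h1 := hmax1' _ (Γ.add_mem hz0.1 hz) h
    have h2 := hz0.2
    have h3 : α ∈ {α | x + z0.1 ∈ Pw p G α} := by rw [h2]; exact h1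
    exact h3
  · intro z hz h α hα
    rw [hadd] at hα
    have hmem : z0 + z ∈ {z : G × H | z ∈ Γ ∧
        {α | x + z.1 ∈ Pw p G α} = {α | x + z1.1 ∈ Pw p G α}} := by
      refine ⟨Γ.add_mem hz0.1 hz, ?_⟩
      apply Set.Subset.antisymm (hmax1' _ (Γ.add_mem hz0.1 hz))
      have h2 := hz0.2
      rw [← h2]
      intro β hβ
      have h3 := h β hβ
      rw [hadd] at h3
      exact h3
    rcases I_total_8297 (p := p) (p • (x + (z0 + z).1)) (p • (x + z0.1)) with h4 | h4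
    · exact h4 hα
    · exact hmax0 hmem h4 hα

end Pool.Agent.Helper317.Ulm
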