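import Pool.Agent.Helper317.Ulm.A1

/-!
Comparison of relative Ulm invariants.
-/

namespace Pool.Agent.Helper317.Ulm


/-- auxiliary: elements of the socle covered by `f Γ` modulo `p ^ (α + 1)` -/
def icR (p : ℕ) {K A : Type} [AddCommGroup K] [AddCommGroup A] (f : K →+ A) (Γ : AddSubgroup K)
    (α : Ordinal.{0}) : AddSubgroup A where
  carrier := {a | a ∈ Soc p A α ∧ ∃ z ∈ Γ, f z - a ∈ Pw p A (α + 1)}
  zero_mem' := ⟨zero_mem _, 0, zero_mem _, by rw [map_zero, sub_zero]; exact zero_mem _⟩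
  add_mem' := by
    rintro a b ⟨ha, z, hz, h1⟩ ⟨hb, w, hw, h2⟩
    refine ⟨add_mem ha hb, z + w, add_mem hz hw, ?_⟩
    have h3 : f (z + w) - (a + b) = (f z - a) + (f w - b) := by rw [map_add]; abel
    rw [h3]
    exact add_mem h1 h2
  neg_mem' := by
    rintro a ⟨ha, z, hz, h1⟩
    refine ⟨neg_mem ha, -z, neg_mem hz, ?_⟩
    have h3 : f (-z) - (-a) = -(f z - a) := by rw [map_neg]; abel
    rw [h3]
    exact neg_mem h1

/-- auxiliary -/
def icD (p : ℕ) {K A : Type} [AddCommGroup K] [AddCommGroup A] (f : K →+ A) (Γ : AddSubgroup K)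
    (α : Ordinal.{0}) : AddSubgroup K where
  carrier := {z | z ∈ Γ ∧ f z ∈ Pw p A α ∧ p • f z ∈ Pw p A (α + 1 + 1)}
  zero_mem' := ⟨zero_mem _, by rw [map_zero]; exact zero_mem _,
    by rw [map_zero, smul_zero]; exact zero_mem _⟩
  add_mem' := by
    rintro a b ⟨ha, h1, h2⟩ ⟨hb, h3, h4⟩
    refine ⟨add_mem ha hb, ?_, ?_⟩
    · rw [map_add]; exact add_mem h1 h3
    · rw [map_add, smul_add]; exact add_mem h2 h4
  neg_mem' := by
    rintro a ⟨ha, h1, h2⟩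
    refine ⟨neg_mem ha, ?_, ?_⟩
    · rw [map_neg]; exact neg_mem h1
    · rw [map_neg, smul_neg]; exact neg_mem h2

/-- auxiliary -/
def icE (p : ℕ) {K A : Type} [AddCommGroup K] [AddCommGroup A] (f : K →+ A) (Γ : AddSubgroup K)
    (α : Ordinal.{0}) : AddSubgroup K where
  carrier := {z | z ∈ Γ ∧ f z ∈ Pw p A (α + 1)}
  zero_mem' := ⟨zero_mem _, by rw [map_zero]; exact zero_mem _⟩
  add_mem' := by
    rintro a b ⟨ha, h1⟩ ⟨hb, h3⟩
    exact ⟨add_mem ha hb, by rw [map_add]; exact add_mem h1 h3⟩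
  neg_mem' := by
    rintro a ⟨ha, h1⟩
    exact ⟨neg_mem ha, by rw [map_neg]; exact neg_mem h1⟩

/-- auxiliary -/
def icM (p : ℕ) {K A : Type} [AddCommGroup K] [AddCommGroup A] (f : K →+ A) (Γ : AddSubgroup K)
    (α : Ordinal.{0}) : AddSubgroup (K × A) where
  carrier := {z | z.1 ∈ Γ ∧ z.2 ∈ Soc p A α ∧ f z.1 - z.2 ∈ Pw p A (α + 1)}
  zero_mem' := ⟨zero_mem _, zero_mem _, by
    rw [Prod.fst_zero, Prod.snd_zero, map_zero, sub_zero]; exact zero_mem _⟩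
  add_mem' := by
    rintro a b ⟨ha, h1, h2⟩ ⟨hb, h3, h4⟩
    refine ⟨add_mem ha hb, add_mem h1 h3, ?_⟩
    have h5 : f (a + b).1 - (a + b).2 = (f a.1 - a.2) + (f b.1 - b.2) := by
      rw [Prod.fst_add, Prod.snd_add, map_add]; abel
    rw [h5]
    exact add_mem h2 h4
  neg_mem' := by
    rintro a ⟨ha, h1, h2⟩
    refine ⟨neg_mem ha, neg_mem h1, ?_⟩
    have h5 : f (-a).1 - (-a).2 = -(f a.1 - a.2) := by
      rw [Prod.fst_neg, Prod.snd_neg, map_neg]; abel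
    rw [h5]
    exact neg_mem h2

theorem ic_key (p : ℕ) {K A : Type} [AddCommGroup K] [AddCommGroup A] (f : K →+ A)
    (Γ : AddSubgroup K) (α : Ordinal.{0}) :
    (Soc p A (α + 1)).relIndex (icR p f Γ α) = (icE p f Γ α).relIndex (icD p f Γ α) := by
  have hle : α ≤ α + 1 := le_self_add
  have h1 : (icM p f Γ α).map (AddMonoidHom.fst K A) = icD p f Γ α := by
    ext z
    constructor
    · rintro ⟨⟨z', a⟩, ⟨hz, ha, h⟩, rfl⟩
      have h2 : f z' = (f z' - a) + a := by abel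
      refine ⟨hz, ?_, ?_⟩
      · change f z' ∈ _
        rw [h2]
        exact add_mem (Pw_anti hle h) ha.1
      · change p • f z' ∈ _
        rw [h2, smul_add, ha.2, add_zero]
        exact mem_Pw_succ.2 ⟨_, h, rfl⟩
    · rintro ⟨hz, h2, h3⟩
      obtain ⟨v, hv, hpv⟩ := mem_Pw_succ.1 h3
      refine ⟨(z, f z - v), ⟨hz, ⟨sub_mem h2 (Pw_anti hle hv), ?_⟩, ?_⟩, rfl⟩
      · rw [smul_sub, hpv, sub_self]
      · change f z - (f z - v) ∈ _
        rw [sub_sub_cancel]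
        exact hv
  have h2 : (icM p f Γ α).map (AddMonoidHom.snd K A) = icR p f Γ α := by
    ext a
    constructor
    · rintro ⟨⟨z', a'⟩, ⟨hz, ha, h⟩, rfl⟩
      exact ⟨ha, z', hz, h⟩
    · rintro ⟨ha, z, hz, h⟩
      exact ⟨(z, a), ⟨hz, ha, h⟩, rfl⟩
  have h3 : (icE p f Γ α).comap (AddMonoidHom.fst K A) ⊓ icM p f Γ α =
      (Soc p A (α + 1)).comap (AddMonoidHom.snd K A) ⊓ icM p f Γ α := by
    ext ⟨z, a⟩
    constructor
    · rintro ⟨⟨hz1, hz2⟩, hm⟩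
      refine ⟨⟨?_, hm.2.1.2⟩, hm⟩
      have h4 : a = f z - (f z - a) := by abel
      change a ∈ _
      rw [h4]
      exact sub_mem hz2 hm.2.2
    · rintro ⟨⟨ha1, ha2⟩, hm⟩
      refine ⟨⟨hm.1, ?_⟩, hm⟩
      have h4 : f z = (f z - a) + a := by abel
      change f z ∈ _
      rw [h4]
      exact add_mem hm.2.2 ha1
  rw [← h1, ← h2, ← AddSubgroup.relIndex_comap, ← AddSubgroup.relIndex_comap,
    ← AddSubgroup.inf_relIndex_right, ← h3, AddSubgroup.inf_relIndex_right]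

theorem idx_cover {p : ℕ} {G H : Type} [AddCommGroup G] [AddCommGroup H]
    {Γ : AddSubgroup (G × H)} (hΓ : Good p Γ) (α : Ordinal.{0}) (hinv : Inv p G α = Inv p H α)
    (hH : ∀ a ∈ Soc p H α, ∃ z ∈ Γ, z.2 - a ∈ Pw p H (α + 1)) :
    ∀ a ∈ Soc p G α, ∃ z ∈ Γ, z.1 - a ∈ Pw p G (α + 1) := by
  have hle : α ≤ α + 1 := le_self_add
  have hG := ic_key p (AddMonoidHom.fst G H) Γ α
  have hHk := ic_key p (AddMonoidHom.snd G H) Γ α
  have hE : icE p (AddMonoidHom.fst G H) Γ α = icE p (AddMonoidHom.snd G H) Γ α := by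
    ext z
    constructor
    · rintro ⟨hz, h⟩
      exact ⟨hz, (hΓ.hgt z hz _).1 h⟩
    · rintro ⟨hz, h⟩
      exact ⟨hz, (hΓ.hgt z hz _).2 h⟩
  have hD : icD p (AddMonoidHom.fst G H) Γ α = icD p (AddMonoidHom.snd G H) Γ α := by
    ext z
    constructor
    · rintro ⟨hz, h, h'⟩
      have hpz : p • z ∈ Γ := nsmul_mem hz p
      exact ⟨hz, (hΓ.hgt z hz _).1 h, (hΓ.hgt _ hpz _).1 h'⟩
    · rintro ⟨hz, h, h'⟩
      have hpz : p • z ∈ Γ := nsmul_mem hz p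
      exact ⟨hz, (hΓ.hgt z hz _).2 h, (hΓ.hgt _ hpz _).2 h'⟩
  have hRH : icR p (AddMonoidHom.snd G H) Γ α = Soc p H α := by
    ext a
    constructor
    · rintro ⟨ha, _⟩
      exact ha
    · intro ha
      exact ⟨ha, hH a ha⟩
  have hfin : (icE p (AddMonoidHom.snd G H) Γ α).relIndex (icD p (AddMonoidHom.snd G H) Γ α) ≠ 0 := by
    have : Finite (icD p (AddMonoidHom.snd G H) Γ α) := by
      apply Set.Finite.to_subtype
      exact hΓ.fin.subset fun z hz => hz.1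
    exact AddSubgroup.index_ne_zero_of_finite
  have h1 : (Soc p G (α + 1)).relIndex (icR p (AddMonoidHom.fst G H) Γ α) = Inv p G α := by
    rw [hG, hE, hD, ← hHk, hRH, hinv]
    rfl
  have hle1 : Soc p G (α + 1) ≤ icR p (AddMonoidHom.fst G H) Γ α := by
    intro a ha
    refine ⟨⟨Pw_anti hle ha.1, ha.2⟩, 0, zero_mem _, ?_⟩
    rw [map_zero, zero_sub]
    exact neg_mem ha.1
  have hle2 : icR p (AddMonoidHom.fst G H) Γ α ≤ Soc p G α := fun a ha => ha.1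
  have h2 := AddSubgroup.relIndex_mul_relIndex _ _ _ hle1 hle2
  have h3 : Inv p G α ≠ 0 := by
    rw [← h1, hG, hE, hD]
    exact hfin
  have h4 : (icR p (AddMonoidHom.fst G H) Γ α).relIndex (Soc p G α) = 1 := by
    rw [h1] at h2
    exact Nat.eq_of_mul_eq_mul_left (Nat.pos_of_ne_zero h3) (h2.trans (mul_one _).symm)
  intro a ha
  exact (AddSubgroup.relIndex_eq_one.1 h4 ha).2

end Pool.Agent.Helper317.Ulm
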